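import Pool.Agent.R293.DK.Lift

/-!
MP_7f766c_an: the obstruction.
-/

set_option autoImplicit false
set_option linter.unusedSectionVars false

noncomputable section

open Complex

namespace Pool.Agent.R293.DK

/-- permutations of four letters -/
abbrev P : Type := Equiv.Perm (Fin 4)

/-- the ambient space -/
abbrev E : Type := P → ℝ

/-- the simplex -/
abbrev Δ : Set E := stdSimplex ℝ P

/-- a face of the simplex -/
def Face (V : Set P) : Set E := {x | x ∈ Δ ∧ ∀ π ∉ V, x π = 0}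

/-- a vertex -/
def dl (π : P) : E := Pi.single π 1

lemma dl_mem {V : Set P} {π : P} (h : π ∈ V) : dl π ∈ Face V := by
  refine ⟨single_mem_stdSimplex ℝ π, fun π' hπ' => ?_⟩
  unfold dl
  rw [Pi.single_apply, if_neg]
  rintro rfl
  exact hπ' h

lemma Face_sub (V : Set P) : Face V ⊆ Δ := fun _ h => h.1

lemma Face_mono {V W : Set P} (h : V ⊆ W) : Face V ⊆ Face W :=
  fun _ hx => ⟨hx.1, fun π hπ => hx.2 π (fun h' => hπ (h h'))⟩

lemma Face_convex (V : Set P) : Convex ℝ (Face V) := by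
  intro x hx y hy a b ha hb hab
  refine ⟨convex_stdSimplex ℝ P hx.1 hy.1 ha hb hab, fun π hπ => ?_⟩
  show a • x π + b • y π = 0
  rw [hx.2 π hπ, hy.2 π hπ]; simp

lemma Face_compact (V : Set P) : IsCompact (Face V) := by
  have h : Face V = Δ ∩ {x | ∀ π ∉ V, x π = 0} := rfl
  rw [h]
  refine (isCompact_stdSimplex ℝ P).inter_right ?_
  simp only [Set.ofPred_forall]
  exact isClosed_iInter fun π => isClosed_iInter fun _ =>
    isClosed_eq (continuous_apply π) continuous_const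

lemma Δ_eq : Δ = Face Set.univ := by
  ext x
  exact ⟨fun h => ⟨h, fun π hπ => absurd (Set.mem_univ π) hπ⟩, fun h => h.1⟩

section core

variable (u : Fin 4 → Fin 4 → E → ℂ) (hc : ∀ i j, ContinuousOn (u i j) Δ)
  (hu : ∀ x ∈ Δ, (Matrix.of fun i j => u i j x) ∈ Matrix.unitaryGroup (Fin 4) ℂ)
  (hz : ∀ x ∈ Δ, ∀ A B : Finset (Fin 4), (∀ π : P, 1 / 25 ≤ x π → ∀ i, i ∈ A ↔ π i ∈ B) →
    ∀ i j, ¬ (i ∈ A ↔ j ∈ B) → u i j x = 0)

include hz in
lemma zero_face {V : Set P} {x : E} (hx : x ∈ Face V) (A B : Finset (Fin 4))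
    (h : ∀ π ∈ V, ∀ i, i ∈ A ↔ π i ∈ B) (i j : Fin 4) (hij : ¬ (i ∈ A ↔ j ∈ B)) :
    u i j x = 0 := by
  refine hz x hx.1 A B (fun π hπ => ?_) i j hij
  by_cases hV : π ∈ V
  · exact h π hV
  · rw [hx.2 π hV] at hπ; norm_num at hπ

include hz in
lemma zero_face1 {V : Set P} {x : E} (hx : x ∈ Face V) {i k : Fin 4} (h : ∀ π ∈ V, π i = k)
    {i' j : Fin 4} (hij : ¬ (i' = i ↔ j = k)) : u i' j x = 0 := by
  refine zero_face u hz hx {i} {k} (fun π hπ i' => ?_) i' j (by simpa using hij)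
  rw [Finset.mem_singleton, Finset.mem_singleton, ← h π hπ]
  exact ⟨fun h => by rw [h], fun h => π.injective h⟩

include hu in
lemma row {x : E} (hx : x ∈ Δ) (i i' : Fin 4) :
    ∑ j, u i j x * star (u i' j x) = if i = i' then 1 else 0 := by
  have h := (Matrix.mem_unitaryGroup_iff).1 (hu x hx)
  have h2 := congrFun (congrFun h i) i'
  rw [Matrix.mul_apply] at h2
  rw [Matrix.one_apply] at h2
  exact h2

include hu hz in
lemma norm_unim {V : Set P} {x : E} (hx : x ∈ Face V) {i k : Fin 4} (h : ∀ π ∈ V, π i = k) :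
    ‖u i k x‖ = 1 := by
  have h1 := row u hu hx.1 i i
  rw [if_pos rfl, Finset.sum_eq_single k] at h1
  · have h2 : ((‖u i k x‖ ^ 2 : ℝ) : ℂ) = 1 := by
      rw [← h1]
      show _ = u i k x * (starRingEnd ℂ) (u i k x)
      rw [Complex.mul_conj']; push_cast; rfl
    have h3 : ‖u i k x‖ ^ 2 = 1 := by exact_mod_cast h2
    nlinarith [norm_nonneg (u i k x)]
  · intro j _ hj
    rw [zero_face1 u hz hx h (i' := i) (j := j) (by simp [hj]), zero_mul]
  · simp

/-- the matrix -/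
def U (x : E) : Matrix (Fin 4) (Fin 4) ℂ := Matrix.of fun i j => u i j x

include hu in
lemma norm_det {x : E} (hx : x ∈ Δ) : ‖(U u x).det‖ = 1 := by
  have h := Matrix.det_of_mem_unitary (hu x hx)
  have h2 : star (U u x).det * (U u x).det = 1 := (Unitary.mem_iff.1 h).1
  have h3 := congrArg norm h2
  rw [norm_mul, norm_star, norm_one] at h3
  nlinarith [norm_nonneg (U u x).det]

include hz in
lemma det_vertex (π : P) : (U u (dl π)).det = Equiv.Perm.sign π * ∏ i, u i (π i) (dl π) := by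
  have hx : dl π ∈ Face {π} := dl_mem (Set.mem_singleton π)
  have h0 : ∀ i j, j ≠ π i → u i j (dl π) = 0 := by
    intro i j hj
    refine zero_face1 u hz hx (i := i) (k := π i) (fun π' hπ' => by
      rw [Set.mem_singleton_iff.1 hπ']) (by simp [hj])
  rw [Matrix.det_apply, Finset.sum_eq_single π⁻¹]
  · rw [Equiv.Perm.sign_inv]
    have h1 : ∏ i, U u (dl π) (π⁻¹ i) i = ∏ i, u i (π i) (dl π) := by
      rw [← Equiv.prod_comp π]
      refine Finset.prod_congr rfl fun i _ => ?_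
      show u (π⁻¹ (π i)) (π i) (dl π) = _
      rw [show π⁻¹ (π i) = i by simp]
    rw [h1, Units.smul_def, zsmul_eq_mul]
  · intro σ _ hσ
    obtain ⟨i, hi⟩ : ∃ i, i ≠ π (σ i) := by
      by_contra hcon
      push Not at hcon
      apply hσ
      ext i
      have := hcon i
      rw [show σ i = π⁻¹ i by rw [Equiv.Perm.eq_inv_iff_eq]; exact this.symm]
    have : ∏ j, U u (dl π) (σ j) j = 0 :=
      Finset.prod_eq_zero (Finset.mem_univ i) (h0 (σ i) i hi)
    rw [this, smul_zero]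
  · simp

variable (α : Fin 4 → Fin 4 → E → ℝ) (βT : E → ℝ)

/-- the corrected argument of the determinant at a vertex -/
def cc (π : P) : ℝ := βT (dl π) - ∑ i, α i (π i) (dl π)

section lifts

variable (hα : ∀ i k, ContinuousOn (α i k) (Face {π | π i = k}))
  (hα2 : ∀ i k, ∀ x ∈ Face {π | π i = k}, u i k x = ex (α i k x))
  (hβ : ContinuousOn βT Δ) (hβ2 : ∀ x ∈ Δ, (U u x).det = ex (βT x))

include hz hα2 hβ2 in
lemma ex_cc (π : P) : ex (cc α βT π) = ((Equiv.Perm.sign π : ℤ) : ℂ) := by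
  unfold cc
  have hx : dl π ∈ Δ := single_mem_stdSimplex ℝ π
  have hne : ∏ i, u i (π i) (dl π) ≠ 0 := by
    rw [Finset.prod_ne_zero_iff]
    intro i _
    rw [hα2 i (π i) (dl π) (dl_mem rfl)]
    exact ex_ne _
  rw [ex_sub, ex_sum, ← hβ2 _ hx, det_vertex u hz]
  have h1 : ∏ i, ex (α i (π i) (dl π)) = ∏ i, u i (π i) (dl π) :=
    Finset.prod_congr rfl fun i _ => (hα2 i (π i) (dl π) (dl_mem rfl)).symm
  rw [h1, mul_div_assoc, div_self hne, mul_one]

include hα hα2 in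
lemma Qlem {V : Set P} {β : E → ℝ} {D : E → ℂ} (hβ : ContinuousOn β (Face V))
    (hβ2 : ∀ x ∈ Face V, D x = ex (β x)) {π π' : P} (hπ : π ∈ V) (hπ' : π' ∈ V)
    {i i' k k' : Fin 4} (h1 : π i = k) (h2 : π' i = k) (h3 : π i' = k') (h4 : π' i' = k') (ε : ℂ)
    (hD : ∀ x ∈ Face {π, π'}, D x = ε * (u i k x * u i' k' x)) :
    β (dl π) - α i k (dl π) - α i' k' (dl π) = β (dl π') - α i k (dl π') - α i' k' (dl π') := by
  have hS1 : Face {π, π'} ⊆ Face V := Face_mono (by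
    rintro x (rfl | rfl)
    · exact hπ
    · exact hπ')
  have hS2 : Face {π, π'} ⊆ Face {π | π i = k} := Face_mono (by
    rintro x (rfl | rfl)
    · exact h1
    · exact h2)
  have hS3 : Face {π, π'} ⊆ Face {π | π i' = k'} := Face_mono (by
    rintro x (rfl | rfl)
    · exact h3
    · exact h4)
  refine const_of_ex (Face_convex {π, π'}).isPreconnected
    (fun x => β x - α i k x - α i' k' x)
    (((hβ.mono hS1).sub ((hα i k).mono hS2)).sub ((hα i' k').mono hS3)) ε ?_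
    (dl_mem (by simp)) (dl_mem (by simp))
  intro x hx
  show ex (β x - α i k x - α i' k' x) = ε
  rw [ex_sub, ex_sub, ← hβ2 x (hS1 hx), ← hα2 i k x (hS2 hx), ← hα2 i' k' x (hS3 hx), hD x hx]
  have n1 : u i k x ≠ 0 := by rw [hα2 i k x (hS2 hx)]; exact ex_ne _
  have n2 : u i' k' x ≠ 0 := by rw [hα2 i' k' x (hS3 hx)]; exact ex_ne _
  field_simp

end lifts

/-- `2 × 2` minors -/
def D2 (i i' k k' : Fin 4) (x : E) : ℂ := u i k x * u i' k' x - u i k' x * u i' k x

include hc in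
lemma D2_cont (i i' k k' : Fin 4) : ContinuousOn (D2 u i i' k k') Δ :=
  ((hc i k).mul (hc i' k')).sub ((hc i k').mul (hc i' k))

lemma lagrange (a b c d : ℂ) (h1 : a * star a + b * star b = 1) (h2 : c * star c + d * star d = 1)
    (h3 : a * star c + b * star d = 0) : ‖a * d - b * c‖ = 1 := by
  have h4 : c * star a + d * star b = 0 := by
    have := congrArg star h3
    rw [star_add, star_mul, star_mul, star_star, star_star, star_zero] at this
    exact this
  have h5 : (a * d - b * c) * star (a * d - b * c) = 1 := by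
    rw [star_sub, star_mul, star_mul]
    have e : (a * d - b * c) * (star d * star a - star c * star b) =
        (a * star a + b * star b) * (c * star c + d * star d) -
          (a * star c + b * star d) * (c * star a + d * star b) := by ring
    rw [e, h1, h2, h3]; ring
  have h6 := congrArg norm h5
  rw [norm_mul, norm_star, norm_one] at h6
  nlinarith [norm_nonneg (a * d - b * c)]

include hu in
/-- unimodular minors -/
lemma D2_norm {x : E} (hx : x ∈ Δ) {i i' k k' : Fin 4} (hii : i ≠ i') (hkk : k ≠ k')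
    (h : ∀ j, j ≠ k → j ≠ k' → u i j x = 0) (h' : ∀ j, j ≠ k → j ≠ k' → u i' j x = 0) :
    ‖D2 u i i' k k' x‖ = 1 := by
  have key : ∀ a b : Fin 4, (∀ j, j ≠ k → j ≠ k' → u a j x = 0) →
      u a k x * star (u b k x) + u a k' x * star (u b k' x) = if a = b then 1 else 0 := by
    intro a b ha
    rw [← row u hu hx a b, ← Finset.sum_subset (Finset.subset_univ {k, k'}),
      Finset.sum_pair hkk]
    intro j _ hj
    rw [Finset.mem_insert, Finset.mem_singleton, not_or] at hj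
    rw [ha j hj.1 hj.2, zero_mul]
  have h1 := key i i h
  have h2 := key i' i' h'
  have h3 := key i i' h
  rw [if_pos rfl] at h1 h2
  rw [if_neg hii] at h3
  exact lagrange _ _ _ _ h1 h2 h3

lemma det_block (a b c d e f g h : ℂ) :
    (!![a, b, 0, 0; c, d, 0, 0; 0, 0, e, f; 0, 0, g, h] : Matrix (Fin 4) (Fin 4) ℂ).det =
      (a * d - b * c) * (e * h - f * g) := by
  simp [Matrix.det_succ_row_zero, Fin.sum_univ_succ, Fin.succAbove]
  ring

/-- the permutations respecting the blocks `{0,1}`, `{2,3}` after relabelling -/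
def VV (ρ θ : P) : Set P := {π | ∀ a : Fin 4, a.val < 2 ↔ (θ⁻¹ (π (ρ a))).val < 2}

include hz in
lemma zero_VV {ρ θ : P} {x : E} (hx : x ∈ Face (VV ρ θ)) (a b : Fin 4)
    (hab : ¬ (a.val < 2 ↔ b.val < 2)) : u (ρ a) (θ b) x = 0 := by
  refine zero_face u hz hx (Finset.univ.filter fun i => (ρ⁻¹ i).val < 2)
    (Finset.univ.filter fun j => (θ⁻¹ j).val < 2) (fun π hπ i => ?_) _ _ ?_
  · have h := hπ (ρ⁻¹ i)
    rw [show ρ (ρ⁻¹ i) = i by simp] at h
    simpa using h
  · simpa using hab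

include hz in
lemma det_VV {ρ θ : P} {x : E} (hx : x ∈ Face (VV ρ θ)) :
    (U u x).det = ((Equiv.Perm.sign θ : ℤ) : ℂ) * ((Equiv.Perm.sign ρ : ℤ) : ℂ) *
      (D2 u (ρ 0) (ρ 1) (θ 0) (θ 1) x * D2 u (ρ 2) (ρ 3) (θ 2) (θ 3) x) := by
  have h1 : ((U u x).submatrix ρ θ).det = ((Equiv.Perm.sign θ : ℤ) : ℂ) *
      (((Equiv.Perm.sign ρ : ℤ) : ℂ) * (U u x).det) := by
    have e : (U u x).submatrix ρ θ = ((U u x).submatrix ρ id).submatrix id θ := rfl
    rw [e, Matrix.det_permute', Matrix.det_permute]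
  have h2 : (U u x).submatrix ρ θ = !![u (ρ 0) (θ 0) x, u (ρ 0) (θ 1) x, 0, 0;
      u (ρ 1) (θ 0) x, u (ρ 1) (θ 1) x, 0, 0;
      0, 0, u (ρ 2) (θ 2) x, u (ρ 2) (θ 3) x;
      0, 0, u (ρ 3) (θ 2) x, u (ρ 3) (θ 3) x] := by
    ext a b
    fin_cases a <;> fin_cases b
    · rfl
    · rfl
    · exact zero_VV u hz hx 0 2 (by decide)
    · exact zero_VV u hz hx 0 3 (by decide)
    · rfl
    · rfl
    · exact zero_VV u hz hx 1 2 (by decide)
    · exact zero_VV u hz hx 1 3 (by decide)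
    · exact zero_VV u hz hx 2 0 (by decide)
    · exact zero_VV u hz hx 2 1 (by decide)
    · rfl
    · rfl
    · exact zero_VV u hz hx 3 0 (by decide)
    · exact zero_VV u hz hx 3 1 (by decide)
    · rfl
    · rfl
  rw [h2, det_block] at h1
  have s1 : ((Equiv.Perm.sign θ : ℤ) : ℂ) * ((Equiv.Perm.sign θ : ℤ) : ℂ) = 1 := by
    rcases Int.units_eq_one_or (Equiv.Perm.sign θ) with h | h <;> rw [h] <;> simp
  have s2 : ((Equiv.Perm.sign ρ : ℤ) : ℂ) * ((Equiv.Perm.sign ρ : ℤ) : ℂ) = 1 := by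
    rcases Int.units_eq_one_or (Equiv.Perm.sign ρ) with h | h <;> rw [h] <;> simp
  unfold D2
  rw [show u (ρ 0) (θ 0) x * u (ρ 1) (θ 1) x - u (ρ 0) (θ 1) x * u (ρ 1) (θ 0) x =
    u (ρ 0) (θ 0) x * u (ρ 1) (θ 1) x - u (ρ 0) (θ 1) x * u (ρ 1) (θ 0) x from rfl, h1]
  calc (U u x).det = (((Equiv.Perm.sign θ : ℤ) : ℂ) * ((Equiv.Perm.sign θ : ℤ) : ℂ)) *
        ((((Equiv.Perm.sign ρ : ℤ) : ℂ) * ((Equiv.Perm.sign ρ : ℤ) : ℂ)) * (U u x).det) := by
        rw [s1, s2]; ring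
    _ = _ := by ring

section square

variable (hα : ∀ i k, ContinuousOn (α i k) (Face {π | π i = k}))
  (hα2 : ∀ i k, ∀ x ∈ Face {π | π i = k}, u i k x = ex (α i k x))
  (hβ : ContinuousOn βT Δ) (hβ2 : ∀ x ∈ Δ, (U u x).det = ex (βT x))

include hc hu hz hα hα2 hβ hβ2 in
theorem square (ρ θ : P) (π0 π1 π2 π3 : P)
    (h0 : ∀ a, π0 (ρ a) = θ a) (h1 : ∀ a, π1 (ρ a) = θ (Equiv.swap 0 1 a))
    (h2 : ∀ a, π2 (ρ a) = θ (Equiv.swap 2 3 a))
    (h3 : ∀ a, π3 (ρ a) = θ (Equiv.swap 0 1 (Equiv.swap 2 3 a))) :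
    cc α βT π0 + cc α βT π3 = cc α βT π1 + cc α βT π2 := by
  have hV : ∀ σ π : P, (∀ a, π (ρ a) = θ (σ a)) → (∀ a : Fin 4, a.val < 2 ↔ (σ a).val < 2) →
      π ∈ VV ρ θ := by
    intro σ π h hσ a
    rw [h, show θ⁻¹ (θ (σ a)) = σ a by simp]
    exact hσ a
  have m0 : π0 ∈ VV ρ θ := hV 1 π0 h0 (by decide)
  have m1 : π1 ∈ VV ρ θ := hV (Equiv.swap 0 1) π1 h1 (by decide)
  have m2 : π2 ∈ VV ρ θ := hV (Equiv.swap 2 3) π2 h2 (by decide)
  have m3 : π3 ∈ VV ρ θ := hV (Equiv.swap 0 1 * Equiv.swap 2 3) π3 h3 (by decide)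
  have hF : Face (VV ρ θ) ⊆ Δ := Face_sub _
  have hθ : ∀ a b : Fin 4, a ≠ b → θ a ≠ θ b := fun a b h h' => h (θ.injective h')
  have hρ : ∀ a b : Fin 4, a ≠ b → ρ a ≠ ρ b := fun a b h h' => h (ρ.injective h')
  have hcov : ∀ j : Fin 4, j = θ 0 ∨ j = θ 1 ∨ j = θ 2 ∨ j = θ 3 := by
    intro j
    obtain ⟨a, rfl⟩ := θ.surjective j
    fin_cases a <;> simp
  obtain ⟨β1, hb1, hb1'⟩ := exists_lift (Face_convex (VV ρ θ)) (Face_compact _)
    (D2 u (ρ 0) (ρ 1) (θ 0) (θ 1)) ((D2_cont u hc _ _ _ _).mono hF) (fun x hx => by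
      refine D2_norm u hu (hF hx) (hρ 0 1 (by decide)) (hθ 0 1 (by decide)) ?_ ?_
      · intro j hj1 hj2
        rcases hcov j with rfl | rfl | rfl | rfl
        · exact absurd rfl hj1
        · exact absurd rfl hj2
        · exact zero_VV u hz hx 0 2 (by decide)
        · exact zero_VV u hz hx 0 3 (by decide)
      · intro j hj1 hj2
        rcases hcov j with rfl | rfl | rfl | rfl
        · exact absurd rfl hj1
        · exact absurd rfl hj2
        · exact zero_VV u hz hx 1 2 (by decide)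
        · exact zero_VV u hz hx 1 3 (by decide))
  obtain ⟨β2, hb2, hb2'⟩ := exists_lift (Face_convex (VV ρ θ)) (Face_compact _)
    (D2 u (ρ 2) (ρ 3) (θ 2) (θ 3)) ((D2_cont u hc _ _ _ _).mono hF) (fun x hx => by
      refine D2_norm u hu (hF hx) (hρ 2 3 (by decide)) (hθ 2 3 (by decide)) ?_ ?_
      · intro j hj1 hj2
        rcases hcov j with rfl | rfl | rfl | rfl
        · exact zero_VV u hz hx 2 0 (by decide)
        · exact zero_VV u hz hx 2 1 (by decide)
        · exact absurd rfl hj1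
        · exact absurd rfl hj2
      · intro j hj1 hj2
        rcases hcov j with rfl | rfl | rfl | rfl
        · exact zero_VV u hz hx 3 0 (by decide)
        · exact zero_VV u hz hx 3 1 (by decide)
        · exact absurd rfl hj1
        · exact absurd rfl hj2)
  have hR : ∀ π π' : P, π ∈ VV ρ θ → π' ∈ VV ρ θ →
      βT (dl π) - β1 (dl π) - β2 (dl π) = βT (dl π') - β1 (dl π') - β2 (dl π') := by
    intro π π' hπ hπ'
    refine const_of_ex (Face_convex (VV ρ θ)).isPreconnected (fun x => βT x - β1 x - β2 x)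
      (((hβ.mono hF).sub hb1).sub hb2)
      (((Equiv.Perm.sign θ : ℤ) : ℂ) * ((Equiv.Perm.sign ρ : ℤ) : ℂ)) ?_ (dl_mem hπ) (dl_mem hπ')
    intro x hx
    show ex (βT x - β1 x - β2 x) = _
    rw [ex_sub, ex_sub, ← hβ2 x (hF hx), ← hb1' x hx, ← hb2' x hx, det_VV u hz hx]
    have n1 : D2 u (ρ 0) (ρ 1) (θ 0) (θ 1) x ≠ 0 := by rw [hb1' x hx]; exact ex_ne _
    have n2 : D2 u (ρ 2) (ρ 3) (θ 2) (θ 3) x ≠ 0 := by rw [hb2' x hx]; exact ex_ne _
    field_simp
  have hz1 : ∀ {V : Set P} {x : E}, x ∈ Face V → ∀ {i k : Fin 4}, (∀ π ∈ V, π i = k) →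
      ∀ {i' j : Fin 4}, ¬ (i' = i ↔ j = k) → u i' j x = 0 := by
    intro V x hx i k h i' j hij
    exact zero_face1 u hz hx h hij
  -- the eight values
  have e00 := h0 0
  have e01 := h0 1
  have e02 := h0 2
  have e03 := h0 3
  have e10 := h1 0
  have e11 := h1 1
  have e12 := h1 2
  have e13 := h1 3
  have e20 := h2 0
  have e21 := h2 1
  have e22 := h2 2
  have e23 := h2 3
  have e30 := h3 0
  have e31 := h3 1
  have e32 := h3 2
  have e33 := h3 3
  rw [show Equiv.swap (0 : Fin 4) 1 0 = 1 by decide] at e10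
  rw [show Equiv.swap (0 : Fin 4) 1 1 = 0 by decide] at e11
  rw [show Equiv.swap (0 : Fin 4) 1 2 = 2 by decide] at e12
  rw [show Equiv.swap (0 : Fin 4) 1 3 = 3 by decide] at e13
  rw [show Equiv.swap (2 : Fin 4) 3 0 = 0 by decide] at e20
  rw [show Equiv.swap (2 : Fin 4) 3 1 = 1 by decide] at e21
  rw [show Equiv.swap (2 : Fin 4) 3 2 = 3 by decide] at e22
  rw [show Equiv.swap (2 : Fin 4) 3 3 = 2 by decide] at e23
  rw [show Equiv.swap (0 : Fin 4) 1 (Equiv.swap 2 3 0) = 1 by decide] at e30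
  rw [show Equiv.swap (0 : Fin 4) 1 (Equiv.swap 2 3 1) = 0 by decide] at e31
  rw [show Equiv.swap (0 : Fin 4) 1 (Equiv.swap 2 3 2) = 3 by decide] at e32
  rw [show Equiv.swap (0 : Fin 4) 1 (Equiv.swap 2 3 3) = 2 by decide] at e33
  have hpair : ∀ {π π' : P} {i k : Fin 4}, π i = k → π' i = k →
      ∀ p ∈ ({π, π'} : Set P), p i = k := by
    rintro π π' i k h h' p (rfl | rfl)
    · exact h
    · exact h'
  have q1 := Qlem u α hα hα2 hb1 hb1' m0 m2 e00 e20 e01 e21 1 (fun x hx => by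
    have := hz1 hx (hpair e00 e20) (i' := ρ 0) (j := θ 1) (by simp)
    unfold D2
    rw [this]; ring)
  have q2 := Qlem u α hα hα2 hb1 hb1' m1 m3 e10 e30 e11 e31 (-1) (fun x hx => by
    have := hz1 hx (hpair e10 e30) (i' := ρ 0) (j := θ 0) (by simp)
    unfold D2
    rw [this]; ring)
  have q3 := Qlem u α hα hα2 hb2 hb2' m0 m1 e02 e12 e03 e13 1 (fun x hx => by
    have := hz1 hx (hpair e02 e12) (i' := ρ 2) (j := θ 3) (by simp)
    unfold D2
    rw [this]; ring)
  have q4 := Qlem u α hα hα2 hb2 hb2' m2 m3 e22 e32 e23 e33 (-1) (fun x hx => by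
    have := hz1 hx (hpair e22 e32) (i' := ρ 2) (j := θ 2) (by simp)
    unfold D2
    rw [this]; ring)
  have r1 := hR π0 π1 m0 m1
  have r2 := hR π0 π2 m0 m2
  have r3 := hR π0 π3 m0 m3
  have hs : ∀ π : P, ∑ i, α i (π i) (dl π) = α (ρ 0) (π (ρ 0)) (dl π) + α (ρ 1) (π (ρ 1)) (dl π) +
      α (ρ 2) (π (ρ 2)) (dl π) + α (ρ 3) (π (ρ 3)) (dl π) := by
    intro π
    rw [← Equiv.sum_comp ρ, Fin.sum_univ_four]
  unfold cc
  rw [hs, hs, hs, hs, e00, e01, e02, e03, e10, e11, e12, e13, e20, e21, e22, e23, e30, e31, e32,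
    e33]
  linarith

end square

end core

end Pool.Agent.R293.DK
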