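import Mathlib

/-!
MP_7f766c_an: unitary equivalences as matrix valued functions.
-/

set_option autoImplicit false
set_option linter.unusedSectionVars false

noncomputable section

open WeakDual WeakDual.CharacterSpace

namespace Pool.Agent.R293.DK

section gelfand

variable {X Y : Type} [TopologicalSpace X] [TopologicalSpace Y] [CompactSpace X] [CompactSpace Y]
  [T2Space X] [T2Space Y]

/-- the map of spaces of a homomorphism -/
def gel (ρ : C(X, ℂ) →⋆ₐ[ℂ] C(Y, ℂ)) : Y → X := fun y =>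
  (homeoEval X ℂ).symm (compContinuousMap ρ (homeoEval Y ℂ y))

lemma gel_cont (ρ : C(X, ℂ) →⋆ₐ[ℂ] C(Y, ℂ)) : Continuous (gel ρ) := by
  unfold gel
  exact (homeoEval X ℂ).symm.continuous.comp
    ((compContinuousMap ρ).continuous.comp (homeoEval Y ℂ).continuous)

lemma gel_apply (ρ : C(X, ℂ) →⋆ₐ[ℂ] C(Y, ℂ)) (f : C(X, ℂ)) (y : Y) : f (gel ρ y) = ρ f y := by
  have h1 : homeoEval X ℂ (gel ρ y) = compContinuousMap ρ (homeoEval Y ℂ y) :=
    (homeoEval X ℂ).apply_symm_apply _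
  have h2 := congrArg (fun χ : characterSpace ℂ C(X, ℂ) => χ f) h1
  exact h2

lemma sep_pt {x x' : X} (h : ∀ f : C(X, ℂ), f x = f x') : x = x' := by
  apply (homeoEval X ℂ).injective
  apply CharacterSpace.ext
  intro f
  exact h f

lemma gel_gel (ρ : C(X, ℂ) →⋆ₐ[ℂ] C(Y, ℂ)) (ρ' : C(Y, ℂ) →⋆ₐ[ℂ] C(X, ℂ))
    (h : ∀ f, ρ' (ρ f) = f) (x : X) : gel ρ (gel ρ' x) = x := by
  apply sep_pt
  intro f
  rw [gel_apply, gel_apply, h]

end gelfand

section module

variable {X Y : Type} [TopologicalSpace X] [TopologicalSpace Y] [CompactSpace X] [CompactSpace Y]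
  [T2Space X] [T2Space Y] {n : ℕ}

/-- the inner product of `C(X)ⁿ` -/
def inn (ξ η : Fin n → C(X, ℂ)) : C(X, ℂ) := ∑ i, star (ξ i) * η i

/-- the left action -/
def lact (σ : Fin n → C(X, X)) (a : C(X, ℂ)) (ξ : Fin n → C(X, ℂ)) : Fin n → C(X, ℂ) :=
  fun i => a.comp (σ i) * ξ i

variable (ρ : C(X, ℂ) ≃⋆ₐ[ℂ] C(Y, ℂ)) (U : (Fin n → C(X, ℂ)) →ₗ[ℂ] (Fin n → C(Y, ℂ)))
  (hU : ∀ ξ η, inn (U ξ) (U η) = ρ (inn ξ η))

lemma inn_single (j j' : Fin n) (b c : C(X, ℂ)) :
    inn (Pi.single j b) (Pi.single j' c) = if j = j' then star b * c else 0 := by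
  classical
  unfold inn
  rw [Finset.sum_eq_single j]
  · rw [Pi.single_eq_same]
    by_cases h : j = j'
    · subst h; rw [if_pos rfl, Pi.single_eq_same]
    · rw [if_neg h, Pi.single_eq_of_ne h, mul_zero]
  · intro i _ hi
    rw [Pi.single_eq_of_ne hi, star_zero, zero_mul]
  · simp

lemma inn_zero {ζ : Fin n → C(Y, ℂ)} (h : inn ζ ζ = 0) : ζ = 0 := by
  funext i
  ext y
  have h1 : ∑ i, star (ζ i y) * ζ i y = 0 := by
    have h2 := congrArg (fun f : C(Y, ℂ) => f y) h
    simp only [inn, ContinuousMap.coe_sum, Finset.sum_apply] at h2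
    exact h2
  have h3 : ∑ i, ‖ζ i y‖ ^ 2 = 0 := by
    have h4 : ((∑ i, ‖ζ i y‖ ^ 2 : ℝ) : ℂ) = 0 := by
      rw [← h1]
      push_cast
      refine Finset.sum_congr rfl fun i _ => ?_
      show _ = (starRingEnd ℂ) (ζ i y) * ζ i y
      rw [Complex.conj_mul']
    exact_mod_cast h4
  have h5 := (Finset.sum_eq_zero_iff_of_nonneg (fun i _ => by positivity)).1 h3 i
    (Finset.mem_univ i)
  have h6 : ‖ζ i y‖ = 0 := pow_eq_zero_iff (two_ne_zero) |>.1 h5
  exact norm_eq_zero.1 h6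

/-- the matrix entries -/
def ent (i j : Fin n) : C(Y, ℂ) := U (Pi.single j 1) i

include hU

lemma ent_unitary (y : Y) : (Matrix.of fun i j => ent U i j y) ∈ Matrix.unitaryGroup (Fin n) ℂ := by
  rw [Matrix.mem_unitaryGroup_iff']
  ext j j'
  rw [Matrix.mul_apply, Matrix.one_apply]
  have h := hU (Pi.single j 1) (Pi.single j' 1)
  rw [inn_single, star_one, one_mul] at h
  have h2 := congrArg (fun f : C(Y, ℂ) => f y) h
  simp only [inn, ContinuousMap.coe_sum, Finset.sum_apply] at h2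
  have h3 : (∑ i, star (ent U i j y) * ent U i j' y) = (ρ (if j = j' then 1 else 0)) y := h2
  rw [show (∑ x, (star (Matrix.of fun i j => ent U i j y)) j x *
    (Matrix.of fun i j => ent U i j y) x j') = ∑ i, star (ent U i j y) * ent U i j' y from rfl, h3]
  split_ifs
  · rw [map_one]; rfl
  · rw [map_zero]; rfl

lemma U_single (j : Fin n) (b : C(X, ℂ)) (i : Fin n) :
    U (Pi.single j b) i = ent U i j * ρ b := by
  set ζ := U (Pi.single j b) with hζ
  set η : Fin n → C(Y, ℂ) := fun i => ent U i j * ρ b with hη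
  have h1 : inn ζ ζ = ρ (star b * b) := by rw [hζ, hU, inn_single, if_pos rfl]
  have h0 : ∀ i, ent U i j = U (Pi.single j 1) i := fun i => rfl
  have h2 : inn ζ η = ρ (star b * b) := by
    have e1 : inn ζ η = inn ζ (U (Pi.single j 1)) * ρ b := by
      unfold inn
      rw [Finset.sum_mul]
      exact Finset.sum_congr rfl fun i _ => by rw [hη]; simp only [h0, mul_assoc]
    rw [e1, hζ, hU, inn_single, if_pos rfl, mul_one, map_mul]
  have h3 : inn η ζ = ρ (star b * b) := by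
    have e1 : inn η ζ = star (ρ b) * inn (U (Pi.single j 1)) ζ := by
      unfold inn
      rw [Finset.mul_sum]
      refine Finset.sum_congr rfl fun i _ => ?_
      rw [hη]; simp only [h0, star_mul]; ring
    rw [e1, hζ, hU, inn_single, if_pos rfl, star_one, one_mul, ← map_star, map_mul]
  have h4 : inn η η = ρ (star b * b) := by
    have e1 : inn η η = star (ρ b) * inn (U (Pi.single j 1)) (U (Pi.single j 1)) * ρ b := by
      unfold inn
      rw [Finset.mul_sum, Finset.sum_mul]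
      refine Finset.sum_congr rfl fun i _ => ?_
      rw [hη]; simp only [h0, star_mul]; ring
    rw [e1, hU, inn_single, if_pos rfl, star_one, one_mul, map_one, mul_one, ← map_star, map_mul]
  have h5 : inn (fun i => ζ i - η i) (fun i => ζ i - η i) = 0 := by
    have e1 : inn (fun i => ζ i - η i) (fun i => ζ i - η i) =
        inn ζ ζ - inn ζ η - inn η ζ + inn η η := by
      unfold inn
      rw [← Finset.sum_sub_distrib, ← Finset.sum_sub_distrib, ← Finset.sum_add_distrib]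
      refine Finset.sum_congr rfl fun i _ => ?_
      rw [star_sub]; ring
    rw [e1, h1, h2, h3, h4]; ring
  have h6 := congrFun (inn_zero h5) i
  exact sub_eq_zero.1 h6

variable (σ : Fin n → C(X, X)) (τ : Fin n → C(Y, Y))
  (hL : ∀ a ξ, U (lact σ a ξ) = lact τ (ρ a) (U ξ))
include hL

lemma ent_inter (i j : Fin n) (y : Y) (h : ent U i j y ≠ 0) :
    σ j (gel (ρ : C(X, ℂ) →⋆ₐ[ℂ] C(Y, ℂ)) y) = gel (ρ : C(X, ℂ) →⋆ₐ[ℂ] C(Y, ℂ)) (τ i y) := by
  classical
  apply sep_pt
  intro a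
  have h1 := congrFun (hL a (Pi.single j 1)) i
  have h2 : lact σ a (Pi.single j 1) = Pi.single j (a.comp (σ j)) := by
    funext k
    unfold lact
    by_cases hk : k = j
    · subst hk; rw [Pi.single_eq_same, Pi.single_eq_same, mul_one]
    · rw [Pi.single_eq_of_ne hk, Pi.single_eq_of_ne hk, mul_zero]
  rw [h2, U_single ρ U hU] at h1
  have h3 := congrArg (fun f : C(Y, ℂ) => f y) h1
  have h4 : ent U i j y * (ρ (a.comp (σ j))) y = (ρ a) (τ i y) * ent U i j y := h3
  have h5 := gel_apply (ρ : C(X, ℂ) →⋆ₐ[ℂ] C(Y, ℂ)) (a.comp (σ j)) y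
  have h6 := gel_apply (ρ : C(X, ℂ) →⋆ₐ[ℂ] C(Y, ℂ)) a (τ i y)
  rw [h6]
  have h7 : (a.comp (σ j)) (gel (ρ : C(X, ℂ) →⋆ₐ[ℂ] C(Y, ℂ)) y) =
      a (σ j (gel (ρ : C(X, ℂ) →⋆ₐ[ℂ] C(Y, ℂ)) y)) := rfl
  rw [← h7, h5]
  have h8 : ent U i j y * (ρ (a.comp (σ j))) y = ent U i j y * (ρ a) (τ i y) := by
    rw [h4, mul_comm]
  exact mul_left_cancel₀ h h8

omit hL in
lemma ent_col (j : Fin n) (y : Y) : ∃ i, ent U i j y ≠ 0 := by
  by_contra hcon
  push Not at hcon
  have h := (Matrix.mem_unitaryGroup_iff'.1 (ent_unitary ρ U hU y))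
  have h2 := congrFun (congrFun h j) j
  rw [Matrix.mul_apply, Matrix.one_apply, if_pos rfl] at h2
  have h3 : (∑ i, star (ent U i j y) * ent U i j y) = 1 := h2
  rw [Finset.sum_eq_zero (fun i _ => by rw [hcon i, mul_zero])] at h3
  exact zero_ne_one h3

omit hL in
lemma ent_row (i : Fin n) (y : Y) : ∃ j, ent U i j y ≠ 0 := by
  by_contra hcon
  push Not at hcon
  have h := (Matrix.mem_unitaryGroup_iff.1 (ent_unitary ρ U hU y))
  have h2 := congrFun (congrFun h i) i
  rw [Matrix.mul_apply, Matrix.one_apply, if_pos rfl] at h2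
  have h3 : (∑ j, ent U i j y * star (ent U i j y)) = 1 := h2
  rw [Finset.sum_eq_zero (fun j _ => by rw [hcon j, zero_mul])] at h3
  exact zero_ne_one h3

end module

end Pool.Agent.R293.DK
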