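import Pool.Agent.R293.DK.Sys
import Pool.Agent.R293.DK.Mod

/-!
MP_7f766c_an: the encodings, conclusion.
-/

set_option autoImplicit false
set_option linter.unusedSectionVars false

noncomputable section

open Complex TopologicalSpace

namespace Pool.Agent.R293.DK

/-- the index type -/
abbrev Ix : Type := P ⊕ (Finset (Fin 4) × Finset (Fin 4))

/-- an injection of the index type in the natural numbers -/
def idx : Ix → ℕ := Classical.choose (exists_injective_nat Ix)

lemma idx_inj : Function.Injective idx := Classical.choose_spec (exists_injective_nat Ix)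

open Classical in
/-- the point of the cube with given coordinates -/
def enc (c : Ix → II) : HH := fun k => if h : ∃ a, idx a = k then c (Classical.choose h) else 0

lemma enc_apply (c : Ix → II) (a : Ix) : enc c (idx a) = c a := by
  have h : ∃ b, idx b = idx a := ⟨a, rfl⟩
  unfold enc
  rw [dif_pos h]
  exact congrArg c (idx_inj (Classical.choose_spec h))

lemma enc_inj {c c' : Ix → II} (h : enc c = enc c') : c = c' := by
  funext a
  rw [← enc_apply c a, h, enc_apply]

lemma enc_cont : Continuous enc := by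
  unfold enc
  refine continuous_pi fun k => ?_
  by_cases h : ∃ a, idx a = k
  · simp only [dif_pos h]
    exact continuous_apply _
  · simp only [dif_neg h]
    exact continuous_const

/-- the permutations respecting the pair -/
def good (A B : Finset (Fin 4)) (π : P) : Prop := ∀ i, i ∈ A ↔ π i ∈ B

open Classical in
/-- a factor -/
def fac (A B : Finset (Fin 4)) (π : P) (x : KK) : ℝ :=
  if good A B π then 1 else max 0 (1 / 25 - x.1 π)

lemma x_nonneg (x : KK) (π : P) : 0 ≤ x.1 π := x.2.1 π

lemma x_le_one (x : KK) (π : P) : x.1 π ≤ 1 := by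
  have h := x.2.2
  rw [← h]
  exact Finset.single_le_sum (fun i _ => x.2.1 i) (Finset.mem_univ π)

lemma fac_nonneg (A B : Finset (Fin 4)) (π : P) (x : KK) : 0 ≤ fac A B π x := by
  unfold fac
  split_ifs
  · exact zero_le_one
  · exact le_max_left _ _

lemma fac_le (A B : Finset (Fin 4)) (π : P) (x : KK) : fac A B π x ≤ 1 := by
  unfold fac
  split_ifs
  · exact le_refl _
  · refine max_le zero_le_one ?_
    have := x_nonneg x π
    linarith

lemma fac_cont (A B : Finset (Fin 4)) (π : P) : Continuous (fac A B π) := by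
  unfold fac
  split_ifs
  · exact continuous_const
  · have h : Continuous fun x : KK => x.1 π := (continuous_apply π).comp continuous_subtype_val
    exact continuous_const.max (continuous_const.sub h)

/-- the function detecting the pair -/
def GG (A B : Finset (Fin 4)) (x : KK) : II :=
  ⟨∏ π, fac A B π x, Finset.prod_nonneg fun π _ => fac_nonneg A B π x,
    Finset.prod_le_one (fun π _ => fac_nonneg A B π x) fun π _ => fac_le A B π x⟩

lemma GG_cont (A B : Finset (Fin 4)) : Continuous (GG A B) := by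
  unfold GG
  exact Continuous.subtype_mk (continuous_finsetProd _ fun π _ => fac_cont A B π) _

lemma GG_zero {A B : Finset (Fin 4)} {x : KK} {π : P} (h : ¬ good A B π) (hx : 1 / 25 < x.1 π) :
    GG A B x = 0 := by
  apply Subtype.ext
  show (∏ π, fac A B π x) = 0
  refine Finset.prod_eq_zero (Finset.mem_univ π) ?_
  unfold fac
  rw [if_neg h]
  exact max_eq_left (by linarith)

lemma GG_ne {A B : Finset (Fin 4)} {x : KK} (h : ∀ π, 1 / 25 ≤ x.1 π → good A B π) :
    GG A B x ≠ 0 := by
  intro h0
  have h1 : (∏ π, fac A B π x) = 0 := congrArg Subtype.val h0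
  obtain ⟨π, -, hπ⟩ := Finset.prod_eq_zero_iff.1 h1
  unfold fac at hπ
  split_ifs at hπ with hg
  · exact one_ne_zero hπ
  · have h2 : ¬ 1 / 25 ≤ x.1 π := fun h' => hg (h π h')
    have h3 : 0 < 1 / 25 - x.1 π := by linarith
    have h4 := le_max_right 0 (1 / 25 - x.1 π)
    rw [hπ] at h4
    linarith

/-- the coordinate of the simplex -/
def co (π : P) (x : KK) : II := ⟨x.1 π, x_nonneg x π, x_le_one x π⟩

lemma co_cont (π : P) : Continuous (co π) := by
  unfold co
  exact Continuous.subtype_mk ((continuous_apply π).comp continuous_subtype_val) _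

/-- coordinates for the first system -/
def cS (j : Fin 4) (x : KK) : Ix → II :=
  Sum.elim (fun π => co π x) (fun p => if j ∈ p.2 then GG p.1 p.2 x else 0)

/-- coordinates for the second system -/
def cT (i : Fin 4) (x : KK) : Ix → II :=
  Sum.elim (fun π => co π x) (fun p => if i ∈ p.1 then GG p.1 p.2 x else 0)

/-- the first system -/
def eS (j : Fin 4) (x : KK) : HH := enc (cS j x)

/-- the second system -/
def eT (i : Fin 4) (x : KK) : HH := enc (cT i x)

lemma eS_cont (j : Fin 4) : Continuous (eS j) := by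
  refine enc_cont.comp (continuous_pi fun a => ?_)
  rcases a with π | p
  · exact co_cont π
  · show Continuous fun x => if j ∈ p.2 then GG p.1 p.2 x else 0
    split_ifs
    · exact GG_cont _ _
    · exact continuous_const

lemma eT_cont (j : Fin 4) : Continuous (eT j) := by
  refine enc_cont.comp (continuous_pi fun a => ?_)
  rcases a with π | p
  · exact co_cont π
  · show Continuous fun x => if j ∈ p.1 then GG p.1 p.2 x else 0
    split_ifs
    · exact GG_cont _ _
    · exact continuous_const

lemma e_eq {π : P} {x : KK} (hx : 1 / 25 < x.1 π) (i : Fin 4) : eT i x = eS (π i) x := by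
  unfold eT eS
  congr 1
  funext a
  rcases a with π' | p
  · rfl
  · show (if i ∈ p.1 then GG p.1 p.2 x else 0) = if π i ∈ p.2 then GG p.1 p.2 x else 0
    by_cases hg : good p.1 p.2 π
    · have := hg i
      by_cases h : i ∈ p.1
      · rw [if_pos h, if_pos (this.1 h)]
      · rw [if_neg h, if_neg (fun h' => h (this.2 h'))]
    · rw [GG_zero hg hx]
      simp

lemma e_inj (i j : Fin 4) (x x' : KK) (h : eT i x = eS j x') : x = x' := by
  have h1 := enc_inj h
  apply Subtype.ext
  funext π
  exact congrArg Subtype.val (congrFun h1 (Sum.inl π))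

lemma e_iff {i j : Fin 4} {x : KK} (h : eS j x = eT i x) {A B : Finset (Fin 4)}
    (hx : ∀ π, 1 / 25 ≤ x.1 π → good A B π) : i ∈ A ↔ j ∈ B := by
  have h1 : (if j ∈ B then GG A B x else 0) = if i ∈ A then GG A B x else 0 :=
    congrFun (enc_inj h) (Sum.inr (A, B))
  have h2 := GG_ne hx
  by_cases hi : i ∈ A <;> by_cases hj : j ∈ B
  · simp [hi, hj]
  · rw [if_neg hj, if_pos hi] at h1
    exact absurd h1.symm h2
  · rw [if_pos hj, if_neg hi] at h1
    exact absurd h1 h2
  · simp [hi, hj]

/-- the first family of maps -/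
def fS (j : Fin 4) : C(XX, XX) := ⟨sy eS j, sy_cont eS eS_cont j⟩

/-- the second family of maps -/
def fT (j : Fin 4) : C(XX, XX) := ⟨sy eT j, sy_cont eT eT_cont j⟩

/-- the open sets -/
def WW (π : P) : Set XX := {y | Sum.elim (fun x : KK => 1 / 25 < x.1 π) (fun _ => π = 1) y}

lemma WW_open (π : P) : IsOpen (WW π) := by
  rw [isOpen_sum_iff]
  constructor
  · have h : Continuous fun x : KK => x.1 π := (continuous_apply π).comp continuous_subtype_val
    exact isOpen_lt continuous_const h
  · show IsOpen {y : HH ⊕ II | π = 1}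
    exact isOpen_const

lemma WW_cover (y : XX) : ∃ π, y ∈ WW π := by
  rcases y with x | z
  · by_contra hcon
    push Not at hcon
    have h1 : ∀ π, x.1 π ≤ 1 / 25 := fun π => not_lt.1 (hcon π)
    have h2 : ∑ π, x.1 π ≤ ∑ _π : P, (1 / 25 : ℝ) := Finset.sum_le_sum fun π _ => h1 π
    rw [x.2.2, Finset.sum_const, Finset.card_univ, Fintype.card_perm, Fintype.card_fin] at h2
    norm_num [Nat.factorial] at h2
  · exact ⟨1, rfl⟩

lemma WW_conj (π : P) (y : XX) (hy : y ∈ WW π) (i : Fin 4) : fT i y = fS (π i) y := by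
  rcases y with x | z
  · show (Sum.inr (Sum.inl (eT i x)) : XX) = Sum.inr (Sum.inl (eS (π i) x))
    rw [e_eq hy]
  · have h : π = 1 := hy
    rw [h]
    rfl

/-- no unitary equivalence -/
theorem no_equiv (ρ : C(XX, ℂ) ≃⋆ₐ[ℂ] C(XX, ℂ))
    (U : (Fin 4 → C(XX, ℂ)) →ₗ[ℂ] (Fin 4 → C(XX, ℂ)))
    (hU : ∀ ξ η, inn (U ξ) (U η) = ρ (inn ξ η))
    (hL : ∀ a ξ, U (lact fS a ξ) = lact fT (ρ a) (U ξ)) : False := by
  set g : XX → XX := gel (ρ : C(XX, ℂ) →⋆ₐ[ℂ] C(XX, ℂ)) with hgdef
  set h : XX → XX := gel (ρ.symm : C(XX, ℂ) →⋆ₐ[ℂ] C(XX, ℂ)) with hhdef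
  have hg : Continuous g := gel_cont _
  have hh : Continuous h := gel_cont _
  have hgh : ∀ x, g (h x) = x := gel_gel _ _ fun f => ρ.symm_apply_apply f
  have hhg : ∀ x, h (g x) = x := gel_gel _ _ fun f => ρ.apply_symm_apply f
  have hr : Rel eS eT g := by
    intro y
    constructor
    · intro i
      obtain ⟨j, hj⟩ := ent_row ρ U hU i y
      exact ⟨j, (ent_inter ρ U hU fS fT hL i j y hj).symm⟩
    · intro j
      obtain ⟨i, hi⟩ := ent_col ρ U hU j y
      exact ⟨i, ent_inter ρ U hU fS fT hL i j y hi⟩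
  have hr' : Rel eT eS h := by
    intro x
    constructor
    · intro j
      obtain ⟨i, hi⟩ := (hr (h x)).2 j
      refine ⟨i, ?_⟩
      rw [hgh] at hi
      rw [hi, hhg]
    · intro i
      obtain ⟨j, hj⟩ := (hr (h x)).1 i
      refine ⟨j, ?_⟩
      rw [hgh] at hj
      rw [← hj, hhg]
  have hK := g_K_id hg hh hr hr' hgh hhg e_inj
  have hH := g_H_id hg hh hr hr' hgh hhg
  classical
  refine core_false (fun i j x => if hx : x ∈ Δ then ent U i j (Sum.inl ⟨x, hx⟩) else 0) ?_ ?_ ?_
  · intro i j
    rw [continuousOn_iff_continuous_domRestrict]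
    have h1 : (Set.domRestrict Δ fun x => if hx : x ∈ Δ then ent U i j (Sum.inl ⟨x, hx⟩) else 0) =
        fun x : KK => ent U i j (Sum.inl x) := by
      funext x
      show (if hx : x.1 ∈ Δ then ent U i j (Sum.inl ⟨x.1, hx⟩) else 0) = _
      rw [dif_pos x.2]
    rw [h1]
    exact (ent U i j).continuous.comp continuous_inl
  · intro x hx
    have h1 : (Matrix.of fun i j => if hx : x ∈ Δ then ent U i j (Sum.inl ⟨x, hx⟩) else 0) =
        Matrix.of fun i j => ent U i j (Sum.inl ⟨x, hx⟩) := by
      ext i j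
      show (if hx : x ∈ Δ then ent U i j (Sum.inl ⟨x, hx⟩) else 0) = ent U i j (Sum.inl ⟨x, hx⟩)
      rw [dif_pos hx]
    rw [h1]
    exact ent_unitary ρ U hU _
  · intro x hx A B hAB i j hij
    show (if hx : x ∈ Δ then ent U i j (Sum.inl ⟨x, hx⟩) else 0) = 0
    rw [dif_pos hx]
    by_contra hne
    apply hij
    have h1 := ent_inter ρ U hU fS fT hL i j _ hne
    rw [← hgdef, hK] at h1
    have h2 : g (fT i (Sum.inl ⟨x, hx⟩)) = Sum.inr (Sum.inl (eT i ⟨x, hx⟩)) := hH _
    rw [h2] at h1
    have h3 : (Sum.inr (Sum.inl (eS j ⟨x, hx⟩)) : XX) = Sum.inr (Sum.inl (eT i ⟨x, hx⟩)) := h1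
    exact e_iff (Sum.inl.inj (Sum.inr.inj h3)) hAB

end Pool.Agent.R293.DK
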