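import Pool.Agent.R293.DK.Core

/-!
MP_7f766c_an: the obstruction, conclusion.
-/

set_option autoImplicit false
set_option linter.unusedSectionVars false

noncomputable section

open Complex

namespace Pool.Agent.R293.DK

/-- a permutation -/
def P0123 : P :=
  ⟨![0, 1, 2, 3], ![0, 1, 2, 3], by decide, by decide⟩

/-- a permutation -/
def P0132 : P :=
  ⟨![0, 1, 3, 2], ![0, 1, 3, 2], by decide, by decide⟩

/-- a permutation -/
def P0213 : P :=
  ⟨![0, 2, 1, 3], ![0, 2, 1, 3], by decide, by decide⟩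

/-- a permutation -/
def P0231 : P :=
  ⟨![0, 2, 3, 1], ![0, 3, 1, 2], by decide, by decide⟩

/-- a permutation -/
def P0312 : P :=
  ⟨![0, 3, 1, 2], ![0, 2, 3, 1], by decide, by decide⟩

/-- a permutation -/
def P0321 : P :=
  ⟨![0, 3, 2, 1], ![0, 3, 2, 1], by decide, by decide⟩

/-- a permutation -/
def P1203 : P :=
  ⟨![1, 2, 0, 3], ![2, 0, 1, 3], by decide, by decide⟩

/-- a permutation -/
def P1230 : P :=
  ⟨![1, 2, 3, 0], ![3, 0, 1, 2], by decide, by decide⟩

/-- a permutation -/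
def P1302 : P :=
  ⟨![1, 3, 0, 2], ![2, 0, 3, 1], by decide, by decide⟩

/-- a permutation -/
def P1320 : P :=
  ⟨![1, 3, 2, 0], ![3, 0, 2, 1], by decide, by decide⟩

/-- a permutation -/
def P2103 : P :=
  ⟨![2, 1, 0, 3], ![2, 1, 0, 3], by decide, by decide⟩

/-- a permutation -/
def P2130 : P :=
  ⟨![2, 1, 3, 0], ![3, 1, 0, 2], by decide, by decide⟩

/-- a permutation -/
def P2301 : P :=
  ⟨![2, 3, 0, 1], ![2, 3, 0, 1], by decide, by decide⟩

/-- a permutation -/
def P2310 : P :=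
  ⟨![2, 3, 1, 0], ![3, 2, 0, 1], by decide, by decide⟩

/-- a permutation -/
def P3102 : P :=
  ⟨![3, 1, 0, 2], ![2, 1, 3, 0], by decide, by decide⟩

/-- a permutation -/
def P3120 : P :=
  ⟨![3, 1, 2, 0], ![3, 1, 2, 0], by decide, by decide⟩

/-- a permutation -/
def P3201 : P :=
  ⟨![3, 2, 0, 1], ![2, 3, 1, 0], by decide, by decide⟩

/-- a permutation -/
def P3210 : P :=
  ⟨![3, 2, 1, 0], ![3, 2, 1, 0], by decide, by decide⟩

lemma sg_P0123 : Equiv.Perm.sign P0123 = 1 := by decide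

lemma sg_P0132 : Equiv.Perm.sign P0132 = -1 := by decide

lemma sg_P0213 : Equiv.Perm.sign P0213 = -1 := by decide

lemma sg_P0231 : Equiv.Perm.sign P0231 = 1 := by decide

lemma sg_P0312 : Equiv.Perm.sign P0312 = 1 := by decide

lemma sg_P0321 : Equiv.Perm.sign P0321 = -1 := by decide

lemma sg_P1203 : Equiv.Perm.sign P1203 = 1 := by decide

lemma sg_P1230 : Equiv.Perm.sign P1230 = -1 := by decide

lemma sg_P1302 : Equiv.Perm.sign P1302 = -1 := by decide

lemma sg_P1320 : Equiv.Perm.sign P1320 = 1 := by decide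

lemma sg_P2103 : Equiv.Perm.sign P2103 = -1 := by decide

lemma sg_P2130 : Equiv.Perm.sign P2130 = 1 := by decide

lemma sg_P2301 : Equiv.Perm.sign P2301 = 1 := by decide

lemma sg_P2310 : Equiv.Perm.sign P2310 = -1 := by decide

lemma sg_P3102 : Equiv.Perm.sign P3102 = 1 := by decide

lemma sg_P3120 : Equiv.Perm.sign P3120 = -1 := by decide

lemma sg_P3201 : Equiv.Perm.sign P3201 = -1 := by decide

lemma sg_P3210 : Equiv.Perm.sign P3210 = 1 := by decide

theorem core_false (u : Fin 4 → Fin 4 → E → ℂ) (hc : ∀ i j, ContinuousOn (u i j) Δ)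
    (hu : ∀ x ∈ Δ, (Matrix.of fun i j => u i j x) ∈ Matrix.unitaryGroup (Fin 4) ℂ)
    (hz : ∀ x ∈ Δ, ∀ A B : Finset (Fin 4), (∀ π : P, 1 / 25 ≤ x π → ∀ i, i ∈ A ↔ π i ∈ B) →
      ∀ i j, ¬ (i ∈ A ↔ j ∈ B) → u i j x = 0) : False := by
  have hlift : ∀ i k, ∃ α : E → ℝ, ContinuousOn α (Face {π | π i = k}) ∧
      ∀ x ∈ Face {π | π i = k}, u i k x = ex (α x) := fun i k =>
    exists_lift (Face_convex _) (Face_compact _) (u i k) ((hc i k).mono (Face_sub _))
      (fun x hx => norm_unim u hu hz hx (fun π hπ => hπ))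
  choose α hα hα2 using hlift
  have hdc : ContinuousOn (fun x => (U u x).det) Δ := by
    have : ∀ x, (U u x).det = ∑ σ : P, Equiv.Perm.sign σ • ∏ i, u (σ i) i x := fun x =>
      Matrix.det_apply _
    simp only [this]
    refine continuousOn_finsetSum _ fun σ _ => ?_
    exact ContinuousOn.const_smul (continuousOn_finsetProd _ fun i _ => hc _ _) _
  obtain ⟨βT, hβ, hβ2⟩ := exists_lift (convex_stdSimplex ℝ P) (isCompact_stdSimplex ℝ P)
    (fun x => (U u x).det) hdc (fun x hx => norm_det u hu hx)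
  have hcc := ex_cc u hz α βT hα2 hβ2
  have key : ∀ π : P, ∃ n : ℤ, cc α βT π = n + (if Equiv.Perm.sign π = 1 then 0 else 1 / 2) := by
    intro π
    have h := hcc π
    rcases Int.units_eq_one_or (Equiv.Perm.sign π) with h1 | h1
    · rw [if_pos h1]
      rw [h1] at h
      obtain ⟨n, hn⟩ := ex_eq_one (by rw [h]; simp)
      exact ⟨n, by rw [hn]; simp⟩
    · rw [if_neg (by rw [h1]; decide)]
      rw [h1] at h
      exact ex_eq_neg_one (by rw [h]; simp)
  choose n hn using key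
  have hE : ∀ π : P, Equiv.Perm.sign π = 1 → cc α βT π = n π := by
    intro π h
    rw [hn π, if_pos h, add_zero]
  have hO : ∀ π : P, Equiv.Perm.sign π = -1 → cc α βT π = n π + 1 / 2 := by
    intro π h
    rw [hn π, if_neg (by rw [h]; decide)]
  have t0 := square u hc hu hz α βT hα hα2 hβ hβ2 P0123 P1203 P1203 P2103 P1230 P2130 (by decide) (by decide)
    (by decide) (by decide)
  rw [hE _ sg_P1203, hE _ sg_P2130,
    hO _ sg_P2103, hO _ sg_P1230] at t0
  have i0 : n P1203 + n P2130 = n P2103 + n P1230 + 1 := by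
    have : ((n P1203 + n P2130 : ℤ) : ℝ) = ((n P2103 + n P1230 + 1 : ℤ) : ℝ) := by push_cast; linarith
    exact_mod_cast this
  have t1 := square u hc hu hz α βT hα hα2 hβ hβ2 P0123 P1302 P1302 P3102 P1320 P3120 (by decide) (by decide)
    (by decide) (by decide)
  rw [hO _ sg_P1302, hO _ sg_P3120,
    hE _ sg_P3102, hE _ sg_P1320] at t1
  have i1 : n P1302 + n P3120 + 1 = n P3102 + n P1320 := by
    have : ((n P1302 + n P3120 + 1 : ℤ) : ℝ) = ((n P3102 + n P1320 : ℤ) : ℝ) := by push_cast; linarith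
    exact_mod_cast this
  have t2 := square u hc hu hz α βT hα hα2 hβ hβ2 P0123 P2301 P2301 P3201 P2310 P3210 (by decide) (by decide)
    (by decide) (by decide)
  rw [hE _ sg_P2301, hE _ sg_P3210,
    hO _ sg_P3201, hO _ sg_P2310] at t2
  have i2 : n P2301 + n P3210 = n P3201 + n P2310 + 1 := by
    have : ((n P2301 + n P3210 : ℤ) : ℝ) = ((n P3201 + n P2310 + 1 : ℤ) : ℝ) := by push_cast; linarith
    exact_mod_cast this
  have t3 := square u hc hu hz α βT hα hα2 hβ hβ2 P0213 P0123 P0213 P1203 P0312 P1302 (by decide) (by decide)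
    (by decide) (by decide)
  rw [hO _ sg_P0213, hO _ sg_P1302,
    hE _ sg_P1203, hE _ sg_P0312] at t3
  have i3 : n P0213 + n P1302 + 1 = n P1203 + n P0312 := by
    have : ((n P0213 + n P1302 + 1 : ℤ) : ℝ) = ((n P1203 + n P0312 : ℤ) : ℝ) := by push_cast; linarith
    exact_mod_cast this
  have t4 := square u hc hu hz α βT hα hα2 hβ hβ2 P0213 P0213 P0123 P2103 P0321 P2301 (by decide) (by decide)
    (by decide) (by decide)
  rw [hE _ sg_P0123, hE _ sg_P2301,
    hO _ sg_P2103, hO _ sg_P0321] at t4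
  have i4 : n P0123 + n P2301 = n P2103 + n P0321 + 1 := by
    have : ((n P0123 + n P2301 : ℤ) : ℝ) = ((n P2103 + n P0321 + 1 : ℤ) : ℝ) := by push_cast; linarith
    exact_mod_cast this
  have t5 := square u hc hu hz α βT hα hα2 hβ hβ2 P0213 P0312 P0132 P3102 P0231 P3201 (by decide) (by decide)
    (by decide) (by decide)
  rw [hO _ sg_P0132, hO _ sg_P3201,
    hE _ sg_P3102, hE _ sg_P0231] at t5
  have i5 : n P0132 + n P3201 + 1 = n P3102 + n P0231 := by
    have : ((n P0132 + n P3201 + 1 : ℤ) : ℝ) = ((n P3102 + n P0231 : ℤ) : ℝ) := by push_cast; linarith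
    exact_mod_cast this
  have t6 := square u hc hu hz α βT hα hα2 hβ hβ2 P0312 P0123 P0231 P1230 P0321 P1320 (by decide) (by decide)
    (by decide) (by decide)
  rw [hE _ sg_P0231, hE _ sg_P1320,
    hO _ sg_P1230, hO _ sg_P0321] at t6
  have i6 : n P0231 + n P1320 = n P1230 + n P0321 + 1 := by
    have : ((n P0231 + n P1320 : ℤ) : ℝ) = ((n P1230 + n P0321 + 1 : ℤ) : ℝ) := by push_cast; linarith
    exact_mod_cast this
  have t7 := square u hc hu hz α βT hα hα2 hβ hβ2 P0312 P0213 P0132 P2130 P0312 P2310 (by decide) (by decide)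
    (by decide) (by decide)
  rw [hO _ sg_P0132, hO _ sg_P2310,
    hE _ sg_P2130, hE _ sg_P0312] at t7
  have i7 : n P0132 + n P2310 + 1 = n P2130 + n P0312 := by
    have : ((n P0132 + n P2310 + 1 : ℤ) : ℝ) = ((n P2130 + n P0312 : ℤ) : ℝ) := by push_cast; linarith
    exact_mod_cast this
  have t8 := square u hc hu hz α βT hα hα2 hβ hβ2 P0312 P0312 P0123 P3120 P0213 P3210 (by decide) (by decide)
    (by decide) (by decide)
  rw [hE _ sg_P0123, hE _ sg_P3210,
    hO _ sg_P3120, hO _ sg_P0213] at t8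
  have i8 : n P0123 + n P3210 = n P3120 + n P0213 + 1 := by
    have : ((n P0123 + n P3210 : ℤ) : ℝ) = ((n P3120 + n P0213 + 1 : ℤ) : ℝ) := by push_cast; linarith
    exact_mod_cast this
  omega

end Pool.Agent.R293.DK
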