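import Mathlib

/-!
MP_7f766c_an: continuous arguments of unimodular functions on compact convex sets.
-/

set_option autoImplicit false
set_option linter.unusedSectionVars false

noncomputable section

open Complex

namespace Pool.Agent.R293.DK

/-- `e^{2πit}` -/
def ex (t : ℝ) : ℂ := Complex.exp (2 * Real.pi * t * I)

lemma ex_add (s t : ℝ) : ex (s + t) = ex s * ex t := by
  unfold ex
  rw [← Complex.exp_add]
  congr 1
  push_cast; ring

lemma ex_zero : ex 0 = 1 := by unfold ex; simp

lemma ex_sub (s t : ℝ) : ex (s - t) = ex s / ex t := by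
  unfold ex
  rw [← Complex.exp_sub]
  congr 1
  push_cast; ring

lemma ex_ne (t : ℝ) : ex t ≠ 0 := Complex.exp_ne_zero _

lemma ex_sum {ι : Type*} (s : Finset ι) (f : ι → ℝ) : ex (∑ i ∈ s, f i) = ∏ i ∈ s, ex (f i) := by
  classical
  induction s using Finset.induction_on with
  | empty => simp [ex_zero]
  | insert a s ha ih => rw [Finset.sum_insert ha, Finset.prod_insert ha, ex_add, ih]

lemma ex_continuous : Continuous ex := by unfold ex; fun_prop

lemma ex_arg {z : ℂ} (hz : ‖z‖ = 1) : ex (z.arg / (2 * Real.pi)) = z := by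
  unfold ex
  have h : (2 * Real.pi * ((z.arg / (2 * Real.pi) : ℝ) : ℂ) * I) = z.arg * I := by
    push_cast
    have : (Real.pi : ℂ) ≠ 0 := by exact_mod_cast Real.pi_ne_zero
    field_simp
  rw [h]
  have h2 := Complex.norm_mul_exp_arg_mul_I z
  rwa [hz, Complex.ofReal_one, one_mul] at h2

lemma ex_eq_one {t : ℝ} (h : ex t = 1) : ∃ n : ℤ, t = n := by
  unfold ex at h
  rw [Complex.exp_eq_one_iff] at h
  obtain ⟨n, hn⟩ := h
  refine ⟨n, ?_⟩
  have hp : (Real.pi : ℂ) ≠ 0 := by exact_mod_cast Real.pi_ne_zero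
  have h1 : (t : ℂ) = n := by
    have h2 : (2 * Real.pi * I) * (t : ℂ) = (2 * Real.pi * I) * n := by
      rw [mul_comm (2 * Real.pi * I) (n : ℂ), ← hn]; ring
    exact mul_left_cancel₀ (by simp [hp]) h2
  exact_mod_cast h1

lemma ex_int (n : ℤ) : ex n = 1 := by
  unfold ex
  rw [Complex.exp_eq_one_iff]
  exact ⟨n, by push_cast; ring⟩

lemma ex_half : ex (1 / 2) = -1 := by
  unfold ex
  have : (2 * Real.pi * ((1 / 2 : ℝ) : ℂ) * I) = Real.pi * I := by push_cast; ring
  rw [this, Complex.exp_pi_mul_I]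

lemma ex_eq_neg_one {t : ℝ} (h : ex t = -1) : ∃ n : ℤ, t = n + 1 / 2 := by
  have h1 : ex (t - 1 / 2) = 1 := by
    rw [ex_sub, h, ex_half]; norm_num
  obtain ⟨n, hn⟩ := ex_eq_one h1
  exact ⟨n, by linarith⟩

lemma arg_cont {z : ℂ} (h : ‖z - 1‖ < 1) : z ∈ slitPlane := by
  rw [Complex.mem_slitPlane_iff]
  left
  have h1 := Complex.abs_re_le_norm (z - 1)
  rw [Complex.sub_re, Complex.one_re] at h1
  have := abs_le.1 (h1.trans h.le)
  have h2 := (abs_lt.1 (lt_of_le_of_lt h1 h)).1
  linarith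

theorem exists_lift {E : Type*} [NormedAddCommGroup E] [NormedSpace ℝ E] {K : Set E}
    (hK : Convex ℝ K) (hc : IsCompact K) (f : E → ℂ) (hf : ContinuousOn f K)
    (hn : ∀ x ∈ K, ‖f x‖ = 1) : ∃ α : E → ℝ, ContinuousOn α K ∧ ∀ x ∈ K, f x = ex (α x) := by
  rcases K.eq_empty_or_nonempty with rfl | ⟨x0, hx0⟩
  · exact ⟨fun _ => 0, continuousOn_empty _, fun x hx => absurd hx (Set.notMem_empty x)⟩
  have huc := hc.uniformContinuousOn_of_continuous hf
  rw [Metric.uniformContinuousOn_iff] at huc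
  obtain ⟨δ, hδ, hf2⟩ := huc 1 one_pos
  obtain ⟨R, hR⟩ := hc.isBounded.exists_norm_le
  obtain ⟨N, hN⟩ := exists_nat_gt (2 * R / δ)
  have hR0 : 0 ≤ R := (norm_nonneg x0).trans (hR x0 hx0)
  have hN0 : (0 : ℝ) < N := lt_of_le_of_lt (by positivity) hN
  set p : ℕ → E → E := fun k x => x0 + ((k : ℝ) / N) • (x - x0) with hp
  have hpK : ∀ k ≤ N, ∀ x ∈ K, p k x ∈ K := by
    intro k hk x hx
    have h1 : (k : ℝ) / N ≤ 1 := by
      rw [div_le_one hN0]; exact_mod_cast hk
    have h2 := hK.add_smul_sub_mem hx0 hx (t := (k : ℝ) / N) ⟨by positivity, h1⟩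
    exact h2
  have hpc : ∀ k, Continuous (p k) := by intro k; rw [hp]; fun_prop
  have hd : ∀ k, ∀ x ∈ K, dist (p (k + 1) x) (p k x) < δ := by
    intro k x hx
    have h1 : p (k + 1) x - p k x = ((1 : ℝ) / N) • (x - x0) := by
      simp only [hp]
      have : (((k + 1 : ℕ) : ℝ) / N) = (k : ℝ) / N + 1 / N := by push_cast; ring
      rw [this, add_smul]; abel
    rw [dist_eq_norm, h1, norm_smul, Real.norm_of_nonneg (by positivity)]
    have h2 : ‖x - x0‖ ≤ 2 * R := by
      have := norm_sub_le x x0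
      have := hR x hx
      have := hR x0 hx0
      linarith
    calc 1 / (N : ℝ) * ‖x - x0‖ ≤ 1 / (N : ℝ) * (2 * R) := by gcongr
      _ = 2 * R / N := by ring
      _ < δ := by
        rw [div_lt_iff₀ hN0]
        rw [div_lt_iff₀ hδ] at hN
        linarith
  set r : ℕ → E → ℂ := fun k x => f (p (k + 1) x) / f (p k x) with hr
  have hr1 : ∀ k, k < N → ∀ x ∈ K, ‖r k x‖ = 1 := by
    intro k hk x hx
    simp only [hr]
    rw [norm_div, hn _ (hpK _ (by omega) x hx), hn _ (hpK _ (by omega) x hx), div_one]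
  have hr2 : ∀ k, k < N → ∀ x ∈ K, r k x ∈ slitPlane := by
    intro k hk x hx
    apply arg_cont
    have h1 := hn _ (hpK k (by omega) x hx)
    have h2 : f (p k x) ≠ 0 := by
      intro h; rw [h, norm_zero] at h1; exact zero_ne_one h1
    have h3 : r k x - 1 = (f (p (k + 1) x) - f (p k x)) / f (p k x) := by
      simp only [hr]; field_simp
    rw [h3, norm_div, h1, div_one, ← dist_eq_norm]
    exact hf2 _ (hpK _ (by omega) x hx) _ (hpK _ (by omega) x hx) (hd k x hx)
  have hprod : ∀ x ∈ K, ∀ m ≤ N, f x0 * ∏ k ∈ Finset.range m, r k x = f (p m x) := by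
    intro x hx m hm
    induction m with
    | zero => simp [hp]
    | succ m ih =>
      rw [Finset.prod_range_succ, ← mul_assoc, ih (by omega)]
      have h1 := hn _ (hpK m (by omega) x hx)
      have h2 : f (p m x) ≠ 0 := by
        intro h; rw [h, norm_zero] at h1; exact zero_ne_one h1
      simp only [hr]
      field_simp
  refine ⟨fun x => (f x0).arg / (2 * Real.pi) +
    ∑ k ∈ Finset.range N, (r k x).arg / (2 * Real.pi), ?_, ?_⟩
  · refine continuousOn_const.add (continuousOn_finsetSum _ fun k hk => ?_)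
    refine ContinuousOn.div_const ?_ _
    have hk' := Finset.mem_range.1 hk
    have hcr : ContinuousOn (r k) K := by
      simp only [hr]
      refine ContinuousOn.div ?_ ?_ ?_
      · exact hf.comp (hpc _).continuousOn (fun x hx => hpK _ (by omega) x hx)
      · exact hf.comp (hpc _).continuousOn (fun x hx => hpK _ (by omega) x hx)
      · intro x hx h
        have h1 := hn _ (hpK k (by omega) x hx)
        rw [h, norm_zero] at h1; exact zero_ne_one h1
    intro x hx
    exact (Complex.continuousAt_arg (hr2 k hk' x hx)).comp_continuousWithinAt (hcr x hx)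
  · intro x hx
    rw [ex_add, ex_arg (hn x0 hx0), ex_sum]
    have h1 : ∏ k ∈ Finset.range N, ex ((r k x).arg / (2 * Real.pi)) =
        ∏ k ∈ Finset.range N, r k x :=
      Finset.prod_congr rfl fun k hk => ex_arg (hr1 k (Finset.mem_range.1 hk) x hx)
    rw [h1, hprod x hx N le_rfl]
    congr 1
    simp only [hp]
    rw [div_self hN0.ne', one_smul]; abel

/-- a continuous function with constant exponential on a preconnected set is constant -/
theorem const_of_ex {E : Type*} [TopologicalSpace E] {K : Set E} (hK : IsPreconnected K)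
    (h : E → ℝ) (hc : ContinuousOn h K) (z : ℂ) (hz : ∀ x ∈ K, ex (h x) = z) {x y : E}
    (hx : x ∈ K) (hy : y ∈ K) : h x = h y := by
  -- `h - h x` is integer valued
  have h1 : ∀ w ∈ K, ∃ n : ℤ, h w - h x = n := by
    intro w hw
    apply ex_eq_one
    rw [ex_sub, hz w hw, hz x hx, div_self]
    rw [← hz x hx]; exact ex_ne _
  have h2 : IsPreconnected ((fun w => h w - h x) '' K) := hK.image _ (hc.sub continuousOn_const)
  by_contra hne
  have h3 : Set.OrdConnected ((fun w => h w - h x) '' K) := h2.ordConnected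
  obtain ⟨n, hn⟩ := h1 y hy
  have hn0 : n ≠ 0 := by
    rintro rfl
    apply hne
    have : h y - h x = 0 := by rw [hn]; simp
    linarith
  have m0 : (0 : ℝ) ∈ (fun w => h w - h x) '' K := ⟨x, hx, sub_self _⟩
  have m1 : (n : ℝ) ∈ (fun w => h w - h x) '' K := ⟨y, hy, hn⟩
  rcases lt_or_gt_of_ne hn0 with hneg | hpos
  · have h4 : (-(1 / 2) : ℝ) ∈ (fun w => h w - h x) '' K := by
      refine h3.out m1 m0 ⟨?_, by norm_num⟩
      have : (n : ℝ) ≤ -1 := by exact_mod_cast (by omega : n ≤ -1)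
      linarith
    obtain ⟨w, hw, hw2⟩ := h4
    obtain ⟨m, hm⟩ := h1 w hw
    have h5 : (m : ℝ) = -(1 / 2) := by rw [← hm]; exact hw2
    have h6 : (2 * m : ℤ) = -1 := by
      have : ((2 * m : ℤ) : ℝ) = ((-1 : ℤ) : ℝ) := by push_cast; linarith
      exact_mod_cast this
    omega
  · have h4 : (1 / 2 : ℝ) ∈ (fun w => h w - h x) '' K := by
      refine h3.out m0 m1 ⟨by norm_num, ?_⟩
      have : (1 : ℝ) ≤ n := by exact_mod_cast (by omega : 1 ≤ n)
      linarith
    obtain ⟨w, hw, hw2⟩ := h4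
    obtain ⟨m, hm⟩ := h1 w hw
    have h5 : (m : ℝ) = 1 / 2 := by rw [← hm]; exact hw2
    have h6 : (2 * m : ℤ) = 1 := by
      have : ((2 * m : ℤ) : ℝ) = ((1 : ℤ) : ℝ) := by push_cast; linarith
      exact_mod_cast this
    omega

end Pool.Agent.R293.DK
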