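import Pool.Agent.R293.DK.Fin

/-!
MP_7f766c_an: the two systems, rigidity.
-/

set_option autoImplicit false
set_option linter.unusedSectionVars false

noncomputable section

open Complex TopologicalSpace

namespace Pool.Agent.R293.DK

/-- the unit interval -/
abbrev II : Type := unitInterval
/-- the Hilbert cube -/
abbrev HH : Type := ℕ → II
/-- the simplex as a space -/
abbrev KK : Type := stdSimplex ℝ P
/-- the space -/
abbrev XX : Type := KK ⊕ (HH ⊕ II)

instance : CompactSpace KK := isCompact_iff_compactSpace.1 (isCompact_stdSimplex ℝ P)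

/-- the shift -/
def shift (h : HH) : HH := fun k => h (k + 1)

/-- the half of a point -/
def half (t : II) : II := ⟨t / 2, by constructor <;> linarith [t.2.1, t.2.2]⟩

/-- the other half -/
def half' (t : II) : II := ⟨(t + 1) / 2, by constructor <;> linarith [t.2.1, t.2.2]⟩

/-- the maps on the interval -/
def sI (j : Fin 4) (t : II) : II := if j = 0 then half t else if j = 1 then half' t else 0

/-- the maps on the cube -/
def sH (j : Fin 4) (h : HH) : HH ⊕ II := if j = 0 then Sum.inl (shift h) else Sum.inr (h 0)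

/-- the maps of a system given by `e` -/
def sy (e : Fin 4 → KK → HH) (j : Fin 4) : XX → XX :=
  Sum.elim (fun x => Sum.inr (Sum.inl (e j x)))
    (Sum.elim (fun h => Sum.inr (sH j h)) (fun t => Sum.inr (Sum.inr (sI j t))))

lemma shift_cont : Continuous shift := by unfold shift; fun_prop

lemma half_cont : Continuous half := by
  unfold half
  exact Continuous.subtype_mk (by fun_prop) _

lemma half'_cont : Continuous half' := by
  unfold half'
  exact Continuous.subtype_mk (by fun_prop) _

lemma sI_cont (j : Fin 4) : Continuous (sI j) := by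
  unfold sI
  split_ifs
  · exact half_cont
  · exact half'_cont
  · exact continuous_const

lemma sH_cont (j : Fin 4) : Continuous (sH j) := by
  unfold sH
  split_ifs
  · exact continuous_inl.comp shift_cont
  · exact continuous_inr.comp (continuous_apply 0)

lemma sy_cont (e : Fin 4 → KK → HH) (he : ∀ j, Continuous (e j)) (j : Fin 4) :
    Continuous (sy e j) := by
  unfold sy
  refine Continuous.sumElim (continuous_inr.comp (continuous_inl.comp (he j)))
    (Continuous.sumElim (continuous_inr.comp (sH_cont j))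
      (continuous_inr.comp (continuous_inr.comp (sI_cont j))))

/-- relation between two systems via `g` -/
def Rel (e e' : Fin 4 → KK → HH) (g : XX → XX) : Prop :=
  ∀ y, (∀ i, ∃ j, g (sy e' i y) = sy e j (g y)) ∧ ∀ j, ∃ i, sy e j (g y) = g (sy e' i y)

/-- the component -/
def cmp : XX → Fin 3 := Sum.elim (fun _ => 0) (Sum.elim (fun _ => 1) (fun _ => 2))

lemma cmp_cont : Continuous cmp := by
  unfold cmp
  exact Continuous.sumElim continuous_const (Continuous.sumElim continuous_const continuous_const)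

lemma cmp_const {Y : Type} [TopologicalSpace Y] [PreconnectedSpace Y] (f : Y → XX)
    (hf : Continuous f) (y y' : Y) : cmp (f y) = cmp (f y') :=
  PreconnectedSpace.constant inferInstance (cmp_cont.comp hf)

lemma cmp0 {x : XX} (h : cmp x = 0) : ∃ k, x = Sum.inl k := by
  rcases x with k | (h' | t)
  · exact ⟨k, rfl⟩
  · exact absurd h (by decide : (1 : Fin 3) ≠ 0)
  · exact absurd h (by decide : (2 : Fin 3) ≠ 0)

lemma cmp1 {x : XX} (h : cmp x = 1) : ∃ k, x = Sum.inr (Sum.inl k) := by
  rcases x with k | (h' | t)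
  · exact absurd h (by decide : (0 : Fin 3) ≠ 1)
  · exact ⟨h', rfl⟩
  · exact absurd h (by decide : (2 : Fin 3) ≠ 1)

lemma cmp2 {x : XX} (h : cmp x = 2) : ∃ k, x = Sum.inr (Sum.inr k) := by
  rcases x with k | (h' | t)
  · exact absurd h (by decide : (0 : Fin 3) ≠ 2)
  · exact absurd h (by decide : (1 : Fin 3) ≠ 2)
  · exact ⟨t, rfl⟩

section

variable {e e' : Fin 4 → KK → HH} {g : XX → XX} (hg : Continuous g) (hr : Rel e e' g)
include hg hr

lemma g_I (t : II) : ∃ s, g (Sum.inr (Sum.inr t)) = Sum.inr (Sum.inr s) := by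
  have hc : ∀ s, cmp (g (Sum.inr (Sum.inr s))) = cmp (g (Sum.inr (Sum.inr t))) := fun s =>
    cmp_const (fun s : II => g (Sum.inr (Sum.inr s)))
      (hg.comp (continuous_inr.comp continuous_inr)) s t
  -- all `sy e j (g y)` are in the same component
  have h1 : ∀ j, cmp (sy e j (g (Sum.inr (Sum.inr t)))) = cmp (g (Sum.inr (Sum.inr t))) := by
    intro j
    obtain ⟨i, hi⟩ := (hr (Sum.inr (Sum.inr t))).2 j
    rw [hi]
    exact hc (sI i t)
  rcases hx : g (Sum.inr (Sum.inr t)) with k | (h | s)
  · have := h1 0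
    rw [hx] at this
    exact absurd this (by decide : (1 : Fin 3) ≠ 0)
  · have := h1 1
    rw [hx] at this
    exact absurd this (by decide : (2 : Fin 3) ≠ 1)
  · exact ⟨s, rfl⟩

lemma g_H {h' : XX → XX} (hh : Continuous h') {e2 e2' : Fin 4 → KK → HH} (hr' : Rel e2 e2' h')
    (hinv : ∀ x, h' (g x) = x) (y : HH) :
    ∃ s, g (Sum.inr (Sum.inl y)) = Sum.inr (Sum.inl s) := by
  rcases hx : g (Sum.inr (Sum.inl y)) with k | (s | s)
  · -- in `K`: contradiction
    obtain ⟨j, hj⟩ := (hr (Sum.inr (Sum.inl y))).1 1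
    obtain ⟨s, hs⟩ := g_I hg hr (y 0)
    have h2 : g (sy e' 1 (Sum.inr (Sum.inl y))) = Sum.inr (Sum.inr s) := hs
    rw [h2, hx] at hj
    have := congrArg cmp hj
    exact absurd this (by decide : (2 : Fin 3) ≠ 1)
  · exact ⟨s, rfl⟩
  · exfalso
    obtain ⟨s', hs'⟩ := g_I hh hr' s
    have := hinv (Sum.inr (Sum.inl y))
    rw [hx, hs'] at this
    have := congrArg cmp this
    exact absurd this (by decide : (2 : Fin 3) ≠ 1)

end

section rigid

variable {γ : II → II}

lemma sI_zero (t : II) : sI 0 t = half t := rfl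
lemma sI_one (t : II) : sI 1 t = half' t := rfl
lemma sI_two (t : II) : sI 2 t = 0 := rfl
lemma sI_three (t : II) : sI 3 t = 0 := rfl

lemma half_val (t : II) : (half t : ℝ) = t / 2 := rfl
lemma half'_val (t : II) : (half' t : ℝ) = (t + 1) / 2 := rfl

lemma sI_cases (j : Fin 4) (t : II) : sI j t = half t ∨ sI j t = half' t ∨ sI j t = 0 := by
  fin_cases j
  · left; rfl
  · right; left; rfl
  · right; right; rfl
  · right; right; rfl

variable (hc : Continuous γ) (hi : Function.Injective γ)
  (h1 : ∀ t, ∀ i, ∃ j, γ (sI i t) = sI j (γ t)) (h2 : ∀ t, ∀ j, ∃ i, sI j (γ t) = γ (sI i t))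
include hi h1 h2

lemma γ_zero : γ 0 = 0 := by
  by_contra hne
  have h0 : sI 0 (0 : II) = 0 := by
    apply Subtype.ext
    show (0 : ℝ) / 2 = 0
    norm_num
  have hv : ((γ 0 : II) : ℝ) ≠ 0 := fun h => hne (Subtype.ext h)
  -- γ 0 = 1
  have h3 : ((γ 0 : II) : ℝ) = 1 := by
    obtain ⟨j, hj⟩ := h1 0 2
    rw [sI_two] at hj
    rcases sI_cases j (γ 0) with h | h | h
    · rw [h] at hj
      have := congrArg Subtype.val hj
      rw [half_val] at this
      exact absurd (by linarith) hv
    · rw [h] at hj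
      have := congrArg Subtype.val hj
      rw [half'_val] at this
      linarith
    · rw [h] at hj
      exact absurd hj hne
  have h4 : γ (half' 0) = 0 := by
    obtain ⟨i, hi'⟩ := h2 0 2
    rw [sI_two] at hi'
    rcases sI_cases i 0 with h | h | h
    · rw [h] at hi'
      rw [sI_zero] at h0
      rw [h0] at hi'
      exact absurd hi'.symm hne
    · rw [h] at hi'; exact hi'.symm
    · rw [h] at hi'
      exact absurd hi'.symm hne
  obtain ⟨i, hi'⟩ := h2 0 0
  rw [sI_zero] at hi'
  have h5 := congrArg Subtype.val hi'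
  rw [half_val, h3] at h5
  rcases sI_cases i 0 with h | h | h
  · rw [h, show half 0 = (0 : II) from h0, h3] at h5; norm_num at h5
  · rw [h, h4] at h5
    have : ((0 : II) : ℝ) = 0 := rfl
    rw [this] at h5; norm_num at h5
  · rw [h, h3] at h5; norm_num at h5

include hc in
lemma γ_mono : StrictMono γ := by
  rcases hc.strictMono_of_inj hi with h | h
  · exact h
  · exfalso
    have h3 := h (show (0 : II) < 1 from zero_lt_one)
    rw [γ_zero hi h1 h2] at h3
    exact absurd h3 (not_lt.2 (γ 1).2.1)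

include hc in
lemma γ_half (t : II) : γ (half t) = half (γ t) ∧ γ (half' t) = half' (γ t) := by
  have hm := γ_mono hc hi h1 h2
  have h0 := γ_zero hi h1 h2
  have hpos : ∀ s : II, 0 < s → 0 < γ s := fun s hs => by rw [← h0]; exact hm hs
  have hh' : (0 : II) < half' t := by
    show (0 : ℝ) < (t + 1) / 2
    linarith [t.2.1]
  have hlt : half t < half' t := by
    show (t : ℝ) / 2 < (t + 1) / 2
    linarith
  have hlt2 : γ (half t) < γ (half' t) := hm hlt
  have hlt3 : half (γ t) < half' (γ t) := by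
    show ((γ t : II) : ℝ) / 2 < (γ t + 1) / 2
    linarith
  -- second
  have hb : γ (half' t) = half' (γ t) := by
    obtain ⟨i, hi'⟩ := h2 t 1
    rw [sI_one] at hi'
    rcases sI_cases i t with h | h | h
    · rw [h] at hi'
      -- then γ (half' t) > half' (γ t), impossible
      obtain ⟨j, hj⟩ := h1 t 1
      rw [sI_one] at hj
      rcases sI_cases j (γ t) with h' | h' | h'
      · rw [h'] at hj
        rw [← hi', hj] at hlt2
        exact absurd hlt2 (not_lt.2 hlt3.le)
      · rw [hj, h']
      · rw [h'] at hj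
        exact absurd (hpos _ hh') (by rw [hj]; exact lt_irrefl _)
    · rw [h] at hi'; exact hi'.symm
    · rw [h, h0] at hi'
      have := congrArg Subtype.val hi'
      rw [half'_val] at this
      have h3 : ((0 : II) : ℝ) = 0 := rfl
      rw [h3] at this
      linarith [(γ t).2.1]
  refine ⟨?_, hb⟩
  by_cases ht : t = 0
  · have h3 : half 0 = (0 : II) := Subtype.ext (by rw [half_val]; show (0 : ℝ) / 2 = 0; norm_num)
    rw [ht, h0, h3, h0]
  · have ht' : 0 < t := lt_of_le_of_ne t.2.1 (fun h => ht h.symm)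
    obtain ⟨i, hi'⟩ := h2 t 0
    rw [sI_zero] at hi'
    rcases sI_cases i t with h | h | h
    · rw [h] at hi'; exact hi'.symm
    · rw [h, hb] at hi'
      exact absurd hi' hlt3.ne
    · rw [h, h0] at hi'
      have h4 := congrArg Subtype.val hi'
      rw [half_val] at h4
      have h5 : (0 : ℝ) < ((γ t : II) : ℝ) := hpos t ht'
      have h3 : ((0 : II) : ℝ) = 0 := rfl
      rw [h3] at h4
      linarith

include hc in
theorem γ_id (t : II) : γ t = t := by
  have hd : Continuous fun s : II => |((γ s : II) : ℝ) - s| := by fun_prop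
  obtain ⟨t0, -, ht0⟩ := (isCompact_univ (X := II)).exists_isMaxOn ⟨0, Set.mem_univ _⟩
    hd.continuousOn
  have hmax : ∀ s : II, |((γ s : II) : ℝ) - s| ≤ |((γ t0 : II) : ℝ) - t0| := fun s =>
    ht0 (Set.mem_univ s)
  have hz : |((γ t0 : II) : ℝ) - t0| = 0 := by
    by_cases h : (t0 : ℝ) ≤ 1 / 2
    · let s : II := ⟨2 * t0, by constructor <;> linarith [t0.2.1]⟩
      have hs : t0 = half s := Subtype.ext (by
        show (t0 : ℝ) = (2 * t0) / 2
        ring)
      have h3 := (γ_half hc hi h1 h2 s).1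
      have h4 := congrArg Subtype.val h3
      rw [half_val, ← hs] at h4
      have h5 := hmax s
      have h6 : ((γ t0 : II) : ℝ) - t0 = (((γ s : II) : ℝ) - s) / 2 := by
        rw [h4]
        show ((γ s : II) : ℝ) / 2 - (t0 : ℝ) = (((γ s : II) : ℝ) - (2 * (t0 : ℝ))) / 2
        ring
      have h7 : |((γ t0 : II) : ℝ) - t0| = |((γ s : II) : ℝ) - s| / 2 := by
        rw [h6, abs_div]; norm_num
      have := abs_nonneg (((γ t0 : II) : ℝ) - t0)
      linarith
    · push Not at h
      let s : II := ⟨2 * t0 - 1, by constructor <;> linarith [t0.2.2]⟩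
      have hs : t0 = half' s := Subtype.ext (by
        show (t0 : ℝ) = ((2 * t0 - 1) + 1) / 2
        ring)
      have h3 := (γ_half hc hi h1 h2 s).2
      have h4 := congrArg Subtype.val h3
      rw [half'_val, ← hs] at h4
      have h5 := hmax s
      have h6 : ((γ t0 : II) : ℝ) - t0 = (((γ s : II) : ℝ) - s) / 2 := by
        rw [h4]
        show (((γ s : II) : ℝ) + 1) / 2 - (t0 : ℝ) = (((γ s : II) : ℝ) - (2 * (t0 : ℝ) - 1)) / 2
        ring
      have h7 : |((γ t0 : II) : ℝ) - t0| = |((γ s : II) : ℝ) - s| / 2 := by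
        rw [h6, abs_div]; norm_num
      have := abs_nonneg (((γ t0 : II) : ℝ) - t0)
      linarith
  have h8 := hmax t
  rw [hz] at h8
  have h9 := abs_eq_zero.1 (le_antisymm h8 (abs_nonneg _))
  exact Subtype.ext (by linarith)

end rigid

section full

variable {e e' e2 e2' : Fin 4 → KK → HH} {g h : XX → XX} (hg : Continuous g) (hh : Continuous h)
  (hr : Rel e e' g) (hr' : Rel e2 e2' h) (hgh : ∀ x, g (h x) = x) (hhg : ∀ x, h (g x) = x)
include hg hh hr hr' hgh hhg

theorem g_I_id (t : II) : g (Sum.inr (Sum.inr t)) = Sum.inr (Sum.inr t) := by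
  choose γ hγ using g_I hg hr
  have hinj : Function.Injective g := fun x y hxy => by rw [← hhg x, hxy, hhg]
  have hc : Continuous γ := by
    have h1 : Continuous fun t : II => (Sum.inr (Sum.inr (γ t)) : XX) := by
      simp only [← hγ]
      exact hg.comp (continuous_inr.comp continuous_inr)
    exact (Topology.IsEmbedding.inr.comp Topology.IsEmbedding.inr).continuous_iff.2 h1
  have hi : Function.Injective γ := by
    intro s t hst
    have : g (Sum.inr (Sum.inr s)) = g (Sum.inr (Sum.inr t)) := by rw [hγ, hγ, hst]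
    have := hinj this
    simpa using this
  have h1 : ∀ t, ∀ i, ∃ j, γ (sI i t) = sI j (γ t) := by
    intro t i
    obtain ⟨j, hj⟩ := (hr (Sum.inr (Sum.inr t))).1 i
    refine ⟨j, ?_⟩
    have e1 : g (sy e' i (Sum.inr (Sum.inr t))) = Sum.inr (Sum.inr (γ (sI i t))) := hγ _
    rw [e1, hγ] at hj
    have e2 : (Sum.inr (Sum.inr (γ (sI i t))) : XX) = Sum.inr (Sum.inr (sI j (γ t))) := hj
    simpa using e2
  have h2 : ∀ t, ∀ j, ∃ i, sI j (γ t) = γ (sI i t) := by
    intro t j
    obtain ⟨i, hi⟩ := (hr (Sum.inr (Sum.inr t))).2 j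
    refine ⟨i, ?_⟩
    have e1 : g (sy e' i (Sum.inr (Sum.inr t))) = Sum.inr (Sum.inr (γ (sI i t))) := hγ _
    rw [e1, hγ] at hi
    have e2 : (Sum.inr (Sum.inr (sI j (γ t))) : XX) = Sum.inr (Sum.inr (γ (sI i t))) := hi
    simpa using e2
  rw [hγ, γ_id hc hi h1 h2]

theorem g_H_id (y : HH) : g (Sum.inr (Sum.inl y)) = Sum.inr (Sum.inl y) := by
  choose η hη using g_H hg hr hh hr' hhg
  have hI := g_I_id hg hh hr hr' hgh hhg
  have h0 : ∀ y, (η y) 0 = y 0 := by
    intro y
    obtain ⟨j, hj⟩ := (hr (Sum.inr (Sum.inl y))).1 1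
    have e1 : g (sy e' 1 (Sum.inr (Sum.inl y))) = Sum.inr (Sum.inr (y 0)) := hI _
    rw [e1, hη] at hj
    have e2 : (Sum.inr (Sum.inr (y 0)) : XX) = Sum.inr (sH j (η y)) := hj
    unfold sH at e2
    split_ifs at e2 with hj0
    · simp at e2
    · have := Sum.inr.inj (Sum.inr.inj e2)
      exact this.symm
  have h1 : ∀ y, η (shift y) = shift (η y) := by
    intro y
    obtain ⟨j, hj⟩ := (hr (Sum.inr (Sum.inl y))).1 0
    have e1 : g (sy e' 0 (Sum.inr (Sum.inl y))) = Sum.inr (Sum.inl (η (shift y))) := hη _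
    rw [e1, hη] at hj
    have e2 : (Sum.inr (Sum.inl (η (shift y))) : XX) = Sum.inr (sH j (η y)) := hj
    unfold sH at e2
    split_ifs at e2 with hj0
    · exact Sum.inl.inj (Sum.inr.inj e2)
    · simp at e2
  have h2 : ∀ k, ∀ y, (η y) k = y k := by
    intro k
    induction k with
    | zero => exact h0
    | succ k ih =>
      intro y
      have := ih (shift y)
      rw [h1] at this
      exact this
  rw [hη]
  congr 2
  funext k
  exact h2 k y

theorem g_K (x : KK) : ∃ x', g (Sum.inl x) = Sum.inl x' := by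
  rcases hx : g (Sum.inl x) with k | (s | s)
  · exact ⟨k, rfl⟩
  · have h1 := g_H_id hg hh hr hr' hgh hhg s
    rw [← hx] at h1
    have h2 := congrArg h h1
    rw [hhg, hhg] at h2
    rw [hx] at h2
    simp at h2
  · have h1 := g_I_id hg hh hr hr' hgh hhg s
    rw [← hx] at h1
    have h2 := congrArg h h1
    rw [hhg, hhg] at h2
    rw [hx] at h2
    simp at h2

/-- if `e` and `e'` determine the point then `g` is the identity on `K` -/
theorem g_K_id (hinj : ∀ i j x x', e' i x = e j x' → x = x') (x : KK) :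
    g (Sum.inl x) = Sum.inl x := by
  obtain ⟨x', hx'⟩ := g_K hg hh hr hr' hgh hhg x
  obtain ⟨j, hj⟩ := (hr (Sum.inl x)).1 0
  have e1 : g (sy e' 0 (Sum.inl x)) = Sum.inr (Sum.inl (e' 0 x)) :=
    g_H_id hg hh hr hr' hgh hhg _
  rw [e1, hx'] at hj
  have e3 : (Sum.inr (Sum.inl (e' 0 x)) : XX) = Sum.inr (Sum.inl (e j x')) := hj
  have e4 := Sum.inl.inj (Sum.inr.inj e3)
  rw [hx', hinj _ _ _ _ e4]

end full

end Pool.Agent.R293.DK
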